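import Pool.Agent.R482.BSP.Prep

set_option autoImplicit false

/-! # Pairs of simple critical zeros in open subsets of tori -/

namespace Pool.Agent.R482.BSP

open Complex Filter Topology Set MeasureTheory
open H370 H370.A2 H370.AS H295SI TH803TW TH803UC
open Pool.Agent.TH850.UV (cnt cnt_eq NS mS mS_nonneg nv2)
open Pool.Agent.R319.WB (ind ind_nonneg nn_loc nn nn_eq nn_block)

lemma final_alg {Y ε ℓ Z N : ℝ} (hε : 0 < ε) (hε1 : ε ≤ 1) (hY1 : Y ≤ 1) (hℓ : 0 ≤ ℓ)
    (hZ : 0 ≤ Z) (hN0 : 0 ≤ N) (hN : N ≤ (1 + ε / 8) * Z) (hY : 0 < Y) :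
    (Y - ε / 2) * ℓ * N ≤ (1 - ε / 8) * ℓ * Y * Z := by
  have hℓZ : 0 ≤ ℓ * Z := mul_nonneg hℓ hZ
  by_cases h : Y - ε / 2 ≤ 0
  · have h1 : (Y - ε / 2) * ℓ * N ≤ 0 :=
      mul_nonpos_of_nonpos_of_nonneg (mul_nonpos_of_nonpos_of_nonneg h hℓ) hN0
    have h2 : 0 ≤ (1 - ε / 8) * ℓ * Y * Z := by
      have : 0 ≤ 1 - ε / 8 := by linarith
      positivity
    linarith
  · push Not at h
    have h1 : (Y - ε / 2) * ℓ * N ≤ (Y - ε / 2) * ℓ * ((1 + ε / 8) * Z) :=
      mul_le_mul_of_nonneg_left hN (mul_nonneg h.le hℓ)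
    have h2 : (1 - ε / 8) * ℓ * Y * Z - (Y - ε / 2) * ℓ * ((1 + ε / 8) * Z) =
        (ε / 2 + ε ^ 2 / 16 - Y * ε / 4) * (ℓ * Z) := by ring
    have h3 : 0 ≤ (ε / 2 + ε ^ 2 / 16 - Y * ε / 4) * (ℓ * Z) := by
      apply mul_nonneg _ hℓZ
      nlinarith
    linarith

lemma alg_f2 {T C q ε : ℝ} (hT : 0 < T) (hq : 0 < q) (hq2 : 16 * (2 + C) ≤ q * ε) :
    T * (2 + C) / (2 * q) ≤ ε / 32 * T := by
  rw [div_le_iff₀ (by positivity)]
  have := mul_le_mul_of_nonneg_left hq2 hT.le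
  linarith

lemma alg_g2 {T L C3 ε P : ℝ} (hT : 0 < T) (e2 : 64 * P * C3 ≤ L * ε) :
    2 * P * (C3 * T) ≤ ε / 32 * (T * L) := by
  have := mul_le_mul_of_nonneg_left e2 hT.le
  linarith

lemma alg_h5 {ε a b g : ℝ} (hε : 0 < ε) (hab : 0 ≤ b - a) (hLL : 27 * g ≤ (b - a) * ε) :
    (1 - ε / 8) * (b - a) ≤ b - a - 3 * g := by
  have : 0 ≤ (b - a) * ε := mul_nonneg hab hε.le
  linarith

lemma alg_ba {ε a b g : ℝ} (hε1 : ε ≤ 1) (hab : 0 ≤ b - a) (hLL : 27 * g ≤ (b - a) * ε) :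
    27 * g ≤ b - a := by
  have := mul_le_mul_of_nonneg_left hε1 hab
  linarith

lemma alg_NT {T L C3 ε : ℝ} (hT : 0 < T) (hC : 0 ≤ C3)
    (e2 : 64 * Real.pi * C3 ≤ L * ε) : C3 * T ≤ ε / 8 * (T * L / (2 * Real.pi)) := by
  have hpi := Real.pi_pos
  have g3 : ε / 8 * (T * L / (2 * Real.pi)) = T * (L * ε) / (16 * Real.pi) := by
    field_simp
    ring
  rw [g3, le_div_iff₀ (by positivity)]
  have h1 := mul_le_mul_of_nonneg_left e2 hT.le
  have h2 : 0 ≤ T * (Real.pi * C3) := by positivity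
  linarith

lemma alg_D {u ε T C2 Φ J R Y : ℝ} (h1 : (4 * Real.pi * C2 + 1) * 16 ≤ T * (3 * ε)) (h2 : J ≤ 1)
    (hΦ : (6725 / 10000 * u - ε / 8) * T - 2 * Real.pi * C2 ≤ Φ) (hR : R ≤ (u + ε / 16) * T)
    (hY : Y = 345 / 1000 * u - ε / 2) : Y * T ≤ 2 * Φ - J - R := by
  have h3 : Y * T = (2 * (6725 / 10000 * u - ε / 8) - (u + ε / 16)) * T - 3 * ε / 16 * T := by
    rw [hY]; ring
  rw [h3]
  linarith

/-- from the number of points to the normalised number -/
lemma alg_card {u ε T L C3 NT S : ℝ} (hε : 0 < ε) (hu1 : u ≤ 1) (hT : 0 < T) (hL : 0 < L) (hS0 : 0 ≤ S)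
    (hN : T * L / (2 * Real.pi) - C3 * T ≤ NT) (e2 : 64 * Real.pi * C3 ≤ L * ε)
    (hcard : (6725 / 10000 * u - ε / 16) * NT ≤ S) :
    (6725 / 10000 * u - 3 * ε / 32) * T ≤ 2 * Real.pi * S / L := by
  have hpi := Real.pi_pos
  rw [le_div_iff₀ hL]
  have hTL : 0 < T * L := mul_pos hT hL
  by_cases hs : 0 ≤ 6725 / 10000 * u - ε / 16
  · have g1 : (6725 / 10000 * u - ε / 16) * (T * L / (2 * Real.pi) - C3 * T) ≤ S :=
      (mul_le_mul_of_nonneg_left hN hs).trans hcard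
    have g2 := alg_g2 (P := Real.pi) hT e2
    have g4 : 2 * Real.pi * ((6725 / 10000 * u - ε / 16) *
        (T * L / (2 * Real.pi) - C3 * T)) ≤ 2 * Real.pi * S :=
      mul_le_mul_of_nonneg_left g1 (by positivity)
    have g5 : 2 * Real.pi * ((6725 / 10000 * u - ε / 16) *
        (T * L / (2 * Real.pi) - C3 * T)) =
        (6725 / 10000 * u - ε / 16) * (T * L - 2 * Real.pi * (C3 * T)) := by
      field_simp
    have g6 : (6725 / 10000 * u - ε / 16) * (T * L - ε / 32 * (T * L)) ≤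
        (6725 / 10000 * u - ε / 16) * (T * L - 2 * Real.pi * (C3 * T)) :=
      mul_le_mul_of_nonneg_left (by linarith) hs
    have g7 : (6725 / 10000 * u - ε / 16) * (T * L - ε / 32 * (T * L)) -
        (6725 / 10000 * u - 3 * ε / 32) * (T * L) =
        (ε / 32 * (1 - (6725 / 10000 * u - ε / 16))) * (T * L) := by ring
    have g8 : 0 ≤ (ε / 32 * (1 - (6725 / 10000 * u - ε / 16))) * (T * L) := by
      have : 0 ≤ 1 - (6725 / 10000 * u - ε / 16) := by linarith
      positivity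
    linarith
  · push Not at hs
    have g1 : (6725 / 10000 * u - 3 * ε / 32) * T * L ≤ 0 := by
      have : 6725 / 10000 * u - 3 * ε / 32 ≤ 0 := by linarith
      exact mul_nonpos_of_nonpos_of_nonneg (mul_nonpos_of_nonpos_of_nonneg this hT.le)
        hL.le
    have g2 : (0 : ℝ) ≤ 2 * Real.pi * S := by positivity
    linarith

lemma alg_Phi {T C q h L card' g S C2 ε u Φ : ℝ} (hT : 0 < T) (hq : 0 < q) (hL : 0 < L)
    (hq2 : 16 * (2 + C) ≤ q * ε) (hg : g = q ^ 2) (hh : h = 2 * Real.pi * g / L)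
    (hcard' : S - C2 * L ≤ card')
    (hS : (6725 / 10000 * u - 3 * ε / 32) * T ≤ 2 * Real.pi * S / L)
    (hΦd : Φ = (h * card' - T * ((1 + C) * g) / (2 * q) - q / 2 * (2 * T - T)) / g) :
    (6725 / 10000 * u - ε / 8) * T - 2 * Real.pi * C2 ≤ Φ := by
  have hpi := Real.pi_pos
  have f1 : Φ = 2 * Real.pi * card' / L - T * (2 + C) / (2 * q) := by
    rw [hΦd, hh, hg]
    field_simp
    ring
  rw [f1]
  have f2 := alg_f2 hT hq hq2
  have f3 : 2 * Real.pi * (S - C2 * L) / L ≤ 2 * Real.pi * card' / L := by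
    apply div_le_div_of_nonneg_right _ hL.le
    exact mul_le_mul_of_nonneg_left hcard' (by positivity)
  have f4 : 2 * Real.pi * (S - C2 * L) / L = 2 * Real.pi * S / L - 2 * Real.pi * C2 := by
    field_simp
  linarith

lemma alg_V {T C g P : ℝ} (hT : 0 < T) (hg1 : 1 ≤ g) (hC : 0 ≤ C) (hP : 1 ≤ P) {I : ℝ}
    (h1 : I ≤ T / P * Real.log (1 + g) + C * T) : I ≤ T * ((1 + C) * g) := by
  have h2 : Real.log (1 + g) ≤ g := by
    have := Real.log_le_sub_one_of_pos (show 0 < 1 + g by linarith)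
    linarith
  have h5 : 0 ≤ Real.log (1 + g) := Real.log_nonneg (by linarith)
  have h4 : T / P ≤ T := div_le_self hT.le hP
  have h3 : T / P * Real.log (1 + g) ≤ T * g :=
    mul_le_mul h4 h2 h5 hT.le
  have h6 : C * T ≤ C * T * g := le_mul_of_one_le_right (by positivity) hg1
  have h7 : T * ((1 + C) * g) = T * g + C * T * g := by ring
  rw [h7]
  linarith

lemma alg_fin {a b g Y T L h P : ℝ} (hL : 0 < L) (hg : 0 < g) (hh : h = 2 * Real.pi * g / L)
    (h1 : ((b - a) / g - 3) * (g ^ 2 * (Y * T)) ≤ h * P) :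
    (b - a - 3 * g) * (Y * (T * L / (2 * Real.pi))) ≤ P := by
  have hpi := Real.pi_pos
  have hh0 : 0 < h := by rw [hh]; positivity
  have h3 : ((b - a) / g - 3) * (g ^ 2 * (Y * T)) =
      h * ((b - a - 3 * g) * (Y * (T * L / (2 * Real.pi)))) := by
    rw [hh]
    field_simp
  rw [h3] at h1
  exact le_of_mul_le_mul_left h1 hh0

lemma PP_mono {S S' : Finset ℝ} (h : S ⊆ S') (a b : ℝ) : PP S a b ≤ PP S' a b := by
  unfold PP
  calc _ ≤ ∑ x ∈ S, ∑ y ∈ S', (if a < y - x ∧ y - x < b then (1 : ℝ) else 0) :=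
        Finset.sum_le_sum fun x _ => Finset.sum_le_sum_of_subset_of_nonneg h fun y _ _ => by
          split_ifs <;> norm_num
    _ ≤ _ := Finset.sum_le_sum_of_subset_of_nonneg h fun x _ _ =>
        Finset.sum_nonneg fun y _ => by split_ifs <;> norm_num

/-- **pairs of simple critical zeros in open subsets of tori, in all long windows** -/
theorem pairs_bohr {ε : ℝ} (hε : 0 < ε) (hε1 : ε ≤ 1) : ∃ L : ℝ, 0 < L ∧
    ∀ (k : ℕ) (α : Fin k → ℝ), (∀ n : Fin k → ℤ, ∑ j, (n j : ℝ) * α j = 0 → n = 0) →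
    ∀ U : Set (UnitAddTorus (Fin k)), IsOpen U → ∃ κ T0 : ℝ, 0 < κ ∧ 10 ≤ T0 ∧
      ∀ T : ℝ, T0 ≤ T → ∀ hT1 : 1 ≤ T, ∀ a b : ℝ, 0 ≤ a → a + L ≤ b → b ≤ κ * Real.log T →
      (345 / 1000 * (haarT k U).toReal - ε) * (b - a) * (NN riemannZeta T (2 * T) : ℝ) ≤
        PP (SZ_finite (A := T) (B := 2 * T) hT1 (fun t => torusPt α t ∈ U)).toFinset
          (2 * Real.pi * a / Real.log T) (2 * Real.pi * b / Real.log T) := by
  classical
  have hpi := Real.pi_pos
  have hpi3 := Real.pi_gt_three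
  have hpi2 : 1 ≤ Real.pi ^ 2 := by nlinarith
  obtain ⟨C, Tv, hC, hTv, hnv⟩ := nv2 1 le_rfl
  obtain ⟨C2, hC2, hloc⟩ := nn_loc
  obtain ⟨C3, T3, hC3, hT3, hblk⟩ := nn_block
  set q : ℝ := max 1 (16 * (2 + C) / ε) with hq
  have hq1 : 1 ≤ q := le_max_left _ _
  have hq0 : 0 < q := by linarith
  have hq2 : 16 * (2 + C) ≤ q * ε := by
    have : 16 * (2 + C) / ε ≤ q := le_max_right _ _
    rwa [div_le_iff₀ hε] at this
  set g : ℝ := q ^ 2 with hg
  have hg0 : 0 < g := by positivity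
  have hg1 : 1 ≤ g := by rw [hg]; nlinarith
  refine ⟨27 * g / ε, by positivity, fun k α hα U hU => ?_⟩
  set u : ℝ := (haarT k U).toReal with hu
  have hu0 : 0 ≤ u := ENNReal.toReal_nonneg
  have hu1 : u ≤ 1 := by
    have := prob_le_one (μ := haarT k) (s := U)
    have h2 := ENNReal.toReal_mono ENNReal.one_ne_top this
    simpa using h2
  have hε32 : 0 < ε / 32 := by positivity
  obtain ⟨V, G, hV, hVU, hG0, hG1, hVm, hGm⟩ := between hU hε32
  have hap := APm_torus hα G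
  have hGc : Continuous fun t => G (torusPt α t) := G.continuous.comp (torus_cont α)
  obtain ⟨δ, hδ, hunif⟩ := unif_ap hap hε32
  obtain ⟨T1, hT1, hmean⟩ := mean_up hap hGc hε32
  obtain ⟨p, hp, T2, hT2, hX⟩ := torusU good_zeta dens_zeta hα hV hε32
  set κ : ℝ := min δ 1 / (4 * Real.pi) with hκ
  have hmin : 0 < min δ 1 := lt_min hδ one_pos
  have hκ0 : 0 < κ := by positivity
  have ev : ∀ᶠ T : ℝ in atTop, g * Real.log g ≤ 1 * Real.log T ∧
      64 * Real.pi * C3 / ε ≤ Real.log T ∧ (4 * Real.pi * C2 + 1) * 16 / (3 * ε) ≤ T ∧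
      4 * Real.pi * g / min δ 1 ≤ Real.log T := by
    refine ((Real.tendsto_log_atTop.eventually_ge_atTop _).mono fun T h => by
      rw [one_mul]; exact h).and ((Real.tendsto_log_atTop.eventually_ge_atTop _).and
      ((eventually_ge_atTop _).and (Real.tendsto_log_atTop.eventually_ge_atTop _)))
  obtain ⟨T5, hT5⟩ := ev.exists_forall_of_atTop
  refine ⟨κ, max (max (max Tv T1) (max T2 T3)) T5, hκ0,
    ((hTv.trans (le_max_left _ _)).trans (le_max_left _ _)).trans (le_max_left _ _), ?_⟩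
  intro T hT hT1' a b ha hab hb
  have q1 : Tv ≤ T := (((le_max_left _ _).trans (le_max_left _ _)).trans (le_max_left _ _)).trans hT
  have q2 : T1 ≤ T := (((le_max_right _ _).trans (le_max_left _ _)).trans (le_max_left _ _)).trans hT
  have q3 : T2 ≤ T := (((le_max_left _ _).trans (le_max_right _ _)).trans (le_max_left _ _)).trans hT
  have q4 : T3 ≤ T := (((le_max_right _ _).trans (le_max_right _ _)).trans (le_max_left _ _)).trans hT
  obtain ⟨e1, e2, e3, e4⟩ := hT5 T ((le_max_right _ _).trans hT)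
  have hT10 : 10 ≤ T := hTv.trans q1
  have hTpos : 0 < T := by linarith
  set L : ℝ := Real.log T with hL
  have hLpos : 0 < L := Real.log_pos (by linarith)
  set h : ℝ := 2 * Real.pi * g / L with hh
  have hh0 : 0 < h := by positivity
  have hhδ : h ≤ min δ 1 / 2 := by
    rw [hh, div_le_iff₀ hLpos]
    rw [div_le_iff₀ hmin] at e4
    linarith
  have hδ1 : min δ 1 ≤ δ := min_le_left _ _
  have h11 : min δ 1 ≤ 1 := min_le_right _ _
  -- the finite sets
  set S := (SZ_finite (A := T) (B := 2 * T) hT1' (fun t => torusPt α t ∈ V)).toFinset with hS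
  have hSU : S ⊆ (SZ_finite (A := T) (B := 2 * T) hT1' (fun t => torusPt α t ∈ U)).toFinset := by
    intro x hx
    rw [hS, Set.Finite.mem_toFinset] at hx
    rw [Set.Finite.mem_toFinset]
    exact ⟨hx.1, hVU hx.2⟩
  refine le_trans ?_ (PP_mono hSU _ _)
  have hSm : ∀ x ∈ S, (T < x ∧ x ≤ 2 * T) ∧ torusPt α x ∈ V := by
    intro x hx
    rw [hS, Set.Finite.mem_toFinset] at hx
    exact ⟨⟨hx.1.1, hx.1.2.1⟩, hx.2⟩
  set NT : ℝ := (NN riemannZeta T (2 * T) : ℝ) with hNT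
  have hNT0 : 0 ≤ NT := Nat.cast_nonneg _
  have hblk' : |NT - T * L / (2 * Real.pi)| ≤ C3 * T := by
    have := hblk T q4
    rwa [nn_eq hT1'] at this
  obtain ⟨n1, n2⟩ := abs_le.1 hblk'
  -- the number of points
  have hcard : (6725 / 10000 * u - ε / 16) * NT ≤ (S.card : ℝ) := by
    have h1 := (hX T q3).1
    have h2 := X1_le_ncard hT1' (B := 2 * T) (P := fun t => torusPt α t ∈ V) hp
    have h3 : (({t : ℝ | (T < t ∧ t ≤ 2 * T ∧ riemannZeta (1 / 2 + I * t) = 0 ∧
      deriv riemannZeta (1 / 2 + I * t) ≠ 0) ∧ torusPt α t ∈ V}.ncard : ℕ) : ℝ) = (S.card : ℝ) := by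
      rw [hS, ← Set.ncard_eq_toFinset_card _ (SZ_finite (A := T) (B := 2 * T) hT1'
        (fun t => torusPt α t ∈ V))]
      rfl
    have h4 : (6725 / 10000 * u - ε / 16) * NT ≤
        ((2 - cc 1) * (haarT k V).toReal - ε / 32) * NT := by
      apply mul_le_mul_of_nonneg_right _ hNT0
      have h5 := cc_lt
      have h6 : 0 ≤ (haarT k V).toReal := ENNReal.toReal_nonneg
      have h7 : 6725 / 10000 * (haarT k V).toReal ≤ (2 - cc 1) * (haarT k V).toReal := by
        apply mul_le_mul_of_nonneg_right _ h6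
        linarith
      linarith
    rw [← h3]
    exact h4.trans (h1.trans h2)
  -- the truncated counts
  obtain ⟨v1, v2⟩ := hnv T q1 g hg0 e1
  have hV2 : ∫ t in T..(2 * T), ((cnt t h : ℝ) - g) ^ 2 ≤ T * ((1 + C) * g) := by
    have h1 := (abs_le.1 v2).2
    exact alg_V hTpos hg1 hC.le hpi2 (by linarith)
  have hΦ := f_lower (A := T) (B := 2 * T) (h := h) (g := g) (κ := q) (by linarith) hh0.le hg0 hq0
    S (fun x hx => (hSm x hx).1.2) (c := fun t => (cnt t h : ℝ))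
    (fun t ht => nS_le_cnt hT1' hh0.le _ ht.1 ht.2) v1 hV2
  set card' : ℝ := ((S.filter (fun x => T + h ≤ x)).card : ℝ) with hc'
  have hcard' : (S.card : ℝ) - C2 * L ≤ card' := by
    have h1 := few_left (A := T) (B := 2 * T) (h := h) hT1' (by linarith) hh0.le
      (fun t => torusPt α t ∈ V)
    have h2 := hloc T hT10 T (T + h) (by linarith) (by linarith) (by linarith) (by linarith)
    have h3 : (S.card : ℝ) - nn T (T + h) ≤ card' := h1
    linarith
  set Φ : ℝ := (h * card' - T * ((1 + C) * g) / (2 * q) - q / 2 * (2 * T - T)) / g with hΦd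
  have e2' : 64 * Real.pi * C3 ≤ L * ε := by
    rwa [div_le_iff₀ hε] at e2
  have hf5 := alg_card (u := u) (S := (S.card : ℝ)) hε hu1 hTpos hLpos (Nat.cast_nonneg _)
    (by linarith) e2' hcard
  have hΦ1 : (6725 / 10000 * u - ε / 8) * T - 2 * Real.pi * C2 ≤ Φ :=
    alg_Phi hTpos hq0 hLpos hq2 hg hh hcard' hf5 hΦd
  -- the weight
  set r : ℝ → ℝ := fun t => G (torusPt α t) + ε / 32 with hr
  have hrc : Continuous r := hGc.add continuous_const
  have hrint : ∫ t in T..(2 * T), r t ≤ (u + ε / 16) * T := by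
    have h1 : ∫ t in T..(2 * T), r t = (∫ t in T..(2 * T), G (torusPt α t)) + ε / 32 * T := by
      rw [hr]
      rw [intervalIntegral.integral_add (hGc.intervalIntegrable _ _) (by simp),
        intervalIntegral.integral_const, smul_eq_mul]
      ring
    rw [h1]
    have h2 := hmean T q2
    have h3 : ((∫ x, G x ∂(haarT k)) + ε / 32) * T ≤ (u + ε / 32) * T := by gcongr
    linarith
  -- the cells
  set j0 : ℕ := ⌈a / g⌉₊ + 1 with hj0
  set j1 : ℕ := ⌊b / g⌋₊ with hj1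
  have hbpos : 0 ≤ b := by
    have : 0 ≤ 27 * g / ε := by positivity
    linarith
  have hLL : 27 * g ≤ (b - a) * ε := by
    have : 27 * g / ε ≤ b - a := by linarith
    rwa [div_le_iff₀ hε] at this
  have hba : 27 * g ≤ b - a := by
    have hba0 : 0 ≤ b - a := by
      have : 0 ≤ 27 * g / ε := by positivity
      linarith
    exact alg_ba hε1 hba0 hLL
  have hjj : (b - a) / g - 3 ≤ (j1 : ℝ) - j0 := by
    have h1 := Nat.lt_floor_add_one (b / g)
    have h2 := Nat.ceil_lt_add_one (show 0 ≤ a / g by positivity)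
    rw [hj0, hj1, sub_div]
    push_cast
    linarith
  have hjj0 : 0 ≤ (b - a) / g - 3 := by
    rw [sub_nonneg, le_div_iff₀ hg0]
    linarith
  have hj : j0 ≤ j1 := by
    have : (j0 : ℝ) ≤ j1 := by linarith
    exact_mod_cast this
  have hja : 2 * Real.pi * a / L ≤ ((j0 : ℝ) - 1) * h := by
    have h1 := Nat.le_ceil (a / g)
    have e : ((j0 : ℝ) - 1) = (⌈a / g⌉₊ : ℝ) := by rw [hj0]; push_cast; ring
    rw [e]
    calc 2 * Real.pi * a / L = a / g * h := by rw [hh]; field_simp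
      _ ≤ (⌈a / g⌉₊ : ℝ) * h := by gcongr
  have hjb : (j1 : ℝ) * h ≤ 2 * Real.pi * b / L := by
    have h1 := Nat.floor_le (show 0 ≤ b / g by positivity)
    calc (j1 : ℝ) * h ≤ b / g * h := by gcongr
      _ = 2 * Real.pi * b / L := by rw [hh]; field_simp
  have hbδ : 2 * Real.pi * b / L ≤ min δ 1 / 2 := by
    rw [div_le_iff₀ hLpos]
    calc 2 * Real.pi * b ≤ 2 * Real.pi * (κ * L) := by gcongr
      _ = min δ 1 / 2 * L := by rw [hκ]; field_simp; ring
  have hmain := pure_pairs (A := T) (B := 2 * T) (h := h) (g := g) (a := 2 * Real.pi * a / L)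
    (b := 2 * Real.pi * b / L) (by linarith) hh0 hg0 S hj hja hjb (r := r)
    (hrc.intervalIntegrable _ _) (fun t _ => by
      have := hG0 (torusPt α t)
      simp only [hr]
      linarith) (fun t _ x hx hxt => by
      have h1 := (abs_le.1 (hunif x t (hxt.trans (by linarith)))).2
      have h2 := hG1 _ (hSm x hx).2
      simp only [hr]
      linarith) hΦ
  set P := PP S (2 * Real.pi * a / L) (2 * Real.pi * b / L) with hP
  have hP0 : 0 ≤ P := PP_nonneg _ _ _
  set Y : ℝ := 345 / 1000 * u - ε / 2 with hY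
  have hD : Y * T ≤ 2 * Φ - j1 * h - ∫ t in T..(2 * T), r t := by
    have h1 : (4 * Real.pi * C2 + 1) * 16 ≤ T * (3 * ε) := by
      rwa [div_le_iff₀ (by positivity)] at e3
    have h2 : (j1 : ℝ) * h ≤ 1 := by linarith
    exact alg_D h1 h2 hΦ1 hrint hY
  by_cases hYs : Y ≤ 0
  · have h1 : 345 / 1000 * u - ε ≤ 0 := by linarith
    have h2 : (345 / 1000 * u - ε) * (b - a) * NT ≤ 0 :=
      mul_nonpos_of_nonpos_of_nonneg (mul_nonpos_of_nonpos_of_nonneg h1 (by linarith)) hNT0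
    exact h2.trans hP0
  · push Not at hYs
    have hD0 : 0 ≤ Y * T := by positivity
    have h1 : ((b - a) / g - 3) * (g ^ 2 * (Y * T)) ≤ h * P := by
      refine le_trans ?_ hmain
      apply mul_le_mul hjj _ (by positivity) (hjj0.trans hjj)
      apply mul_le_mul_of_nonneg_left hD (by positivity)
    have h2 : (b - a - 3 * g) * (Y * (T * L / (2 * Real.pi))) ≤ P := alg_fin hLpos hg0 hh h1
    have hZ0 : 0 ≤ T * L / (2 * Real.pi) := by positivity
    have h4 : (1 - ε / 8) * (b - a) * Y * (T * L / (2 * Real.pi)) ≤ P := by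
      refine le_trans ?_ h2
      have h5 : (1 - ε / 8) * (b - a) ≤ b - a - 3 * g := alg_h5 hε (by linarith) hLL
      calc (1 - ε / 8) * (b - a) * Y * (T * L / (2 * Real.pi)) =
          ((1 - ε / 8) * (b - a)) * (Y * (T * L / (2 * Real.pi))) := by ring
        _ ≤ _ := by gcongr
    refine le_trans ?_ h4
    have h6 : NT ≤ (1 + ε / 8) * (T * L / (2 * Real.pi)) := by
      have g2 := alg_NT hTpos hC3.le e2'
      linarith
    have h7 := final_alg (Y := Y) hε hε1 (by rw [hY]; linarith) (show 0 ≤ b - a by linarith) hZ0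
      hNT0 h6 hYs
    have h8 : 345 / 1000 * u - ε = Y - ε / 2 := by rw [hY]; ring
    rw [h8]
    exact h7

end Pool.Agent.R482.BSP
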