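import Pool.Agent.R319.WB1

set_option autoImplicit false

/-! # Pairs in a sparse set from cell counts -/

namespace Pool.Agent.R482.BSP

open MeasureTheory Set
open Pool.Agent.R319.WB (J ind ind_nonneg ind_le_one ind_meas ind_ii ind_int1 J_self J_self_le
  J_nonneg)

/-- the number of points in `(t, t + h]` -/
noncomputable def nS (S : Finset ℝ) (h t : ℝ) : ℝ := ∑ x ∈ S, ind h x t

/-- the truncated and normalised count -/
noncomputable def fS (S : Finset ℝ) (h g t : ℝ) : ℝ := min (nS S h t) g / g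

lemma bmi {f : ℝ → ℝ} (hf : Measurable f) {M : ℝ} (hM : ∀ t, |f t| ≤ M) (A B : ℝ) :
    IntervalIntegrable f volume A B := by
  rw [intervalIntegrable_iff]
  exact Measure.integrableOn_of_bounded (M := M) (by simp) hf.aestronglyMeasurable
    (Filter.Eventually.of_forall fun t => by rw [Real.norm_eq_abs]; exact hM t)

lemma nS_nonneg (S : Finset ℝ) (h t : ℝ) : 0 ≤ nS S h t :=
  Finset.sum_nonneg fun x _ => ind_nonneg h x t

lemma nS_le (S : Finset ℝ) (h t : ℝ) : nS S h t ≤ S.card := by
  unfold nS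
  calc ∑ x ∈ S, ind h x t ≤ ∑ x ∈ S, (1 : ℝ) := Finset.sum_le_sum fun x _ => ind_le_one h x t
    _ = S.card := by simp

lemma nS_meas (S : Finset ℝ) (h : ℝ) : Measurable (nS S h) := by
  unfold nS
  exact Finset.measurable_sum S fun x _ => ind_meas h x

lemma fS_nonneg (S : Finset ℝ) (h : ℝ) {g : ℝ} (hg : 0 < g) (t : ℝ) : 0 ≤ fS S h g t :=
  div_nonneg (le_min (nS_nonneg S h t) hg.le) hg.le

lemma fS_le (S : Finset ℝ) (h : ℝ) {g : ℝ} (hg : 0 < g) (t : ℝ) : fS S h g t ≤ 1 := by
  unfold fS
  rw [div_le_one hg]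
  exact min_le_right _ _

lemma fS_meas (S : Finset ℝ) (h g : ℝ) : Measurable (fS S h g) := by
  unfold fS
  exact ((nS_meas S h).min measurable_const).div_const g

lemma fS_mul (S : Finset ℝ) (h : ℝ) {g : ℝ} (hg : 0 < g) (t : ℝ) : g * fS S h g t ≤ nS S h t := by
  unfold fS
  rw [mul_div_cancel₀ _ hg.ne']
  exact min_le_left _ _

lemma fS_ii (S : Finset ℝ) (h : ℝ) {g : ℝ} (hg : 0 < g) (u A B : ℝ) :
    IntervalIntegrable (fun t => fS S h g (t + u)) volume A B := by
  refine bmi ((fS_meas S h g).comp (measurable_id.add_const u)) (M := 1) (fun t => ?_) A B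
  show |fS S h g (t + u)| ≤ 1
  rw [abs_of_nonneg (fS_nonneg S h hg _)]
  exact fS_le S h hg _

lemma fS_ii' (S : Finset ℝ) (h : ℝ) {g : ℝ} (hg : 0 < g) (A B : ℝ) :
    IntervalIntegrable (fun t => fS S h g t) volume A B := by
  have := fS_ii S h hg 0 A B
  simpa using this

lemma fS_pos {S : Finset ℝ} {h g t : ℝ} (hg : 0 < g) (h1 : 0 < fS S h g t) :
    ∃ x ∈ S, t < x ∧ x ≤ t + h := by
  by_contra hcon
  push Not at hcon
  have : nS S h t = 0 := by
    unfold nS
    refine Finset.sum_eq_zero fun x hx => ?_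
    unfold ind
    rw [if_neg]
    rintro ⟨h2, h3⟩
    exact absurd (hcon x hx h2) (not_lt.2 h3)
  unfold fS at h1
  rw [this, min_eq_left hg.le, zero_div] at h1
  exact lt_irrefl _ h1

lemma cells {h : ℝ} (hh : 0 ≤ h) (y t : ℝ) {j0 j1 : ℕ} (hj : j0 ≤ j1) :
    ∑ j ∈ Finset.Ico j0 j1, ind h y (t + j * h) =
      (if t + j0 * h < y then (1 : ℝ) else 0) - (if t + j1 * h < y then 1 else 0) := by
  induction j1, hj using Nat.le_induction with
  | base => simp
  | succ n hn ih =>
    rw [Finset.sum_Ico_succ_top hn, ih]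
    have h1 : ind h y (t + n * h) = (if t + n * h < y then (1 : ℝ) else 0) -
        (if t + (n + 1 : ℕ) * h < y then 1 else 0) := by
      unfold ind
      push_cast
      have e : t + (n + 1 : ℝ) * h = t + n * h + h := by ring
      rw [e]
      by_cases h2 : t + n * h < y
      · by_cases h3 : t + n * h + h < y
        · rw [if_neg (fun h4 => absurd h3 (not_lt.2 h4.2)), if_pos h2, if_pos h3]
          norm_num
        · rw [if_pos ⟨h2, not_lt.1 h3⟩, if_pos h2, if_neg h3]
          norm_num
      · rw [if_neg (fun h4 => h2 h4.1), if_neg h2, if_neg (by intro h3; apply h2; linarith)]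
        norm_num
    rw [h1]
    ring

/-- the number of pairs with difference in `(a, b)` -/
noncomputable def PP (S : Finset ℝ) (a b : ℝ) : ℝ :=
  ∑ x ∈ S, ∑ y ∈ S, (if a < y - x ∧ y - x < b then (1 : ℝ) else 0)

lemma PP_nonneg (S : Finset ℝ) (a b : ℝ) : 0 ≤ PP S a b :=
  Finset.sum_nonneg fun _ _ => Finset.sum_nonneg fun _ _ => by split_ifs <;> norm_num

lemma pairs_pt (S : Finset ℝ) {h a b : ℝ} (hh : 0 ≤ h) {j0 j1 : ℕ} (hj : j0 ≤ j1)
    (ha : a ≤ ((j0 : ℝ) - 1) * h) (hb : j1 * h ≤ b) (t : ℝ) :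
    nS S h t * ∑ j ∈ Finset.Ico j0 j1, nS S h (t + j * h) ≤
      ∑ x ∈ S, ∑ y ∈ S, ind h x t * (if a < y - x ∧ y - x < b then (1 : ℝ) else 0) := by
  have e : nS S h t * ∑ j ∈ Finset.Ico j0 j1, nS S h (t + j * h) =
      ∑ x ∈ S, ∑ y ∈ S, ind h x t * ∑ j ∈ Finset.Ico j0 j1, ind h y (t + j * h) := by
    unfold nS
    rw [Finset.sum_comm, Finset.sum_mul_sum]
  rw [e]
  refine Finset.sum_le_sum fun x _ => Finset.sum_le_sum fun y _ => ?_
  by_cases hx : t < x ∧ x ≤ t + h
  · have h1 : ind h x t = 1 := by unfold ind; rw [if_pos hx]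
    rw [h1, one_mul, one_mul]
    by_cases hc : a < y - x ∧ y - x < b
    · rw [if_pos hc, cells hh y t hj]
      split_ifs <;> norm_num
    · rw [if_neg hc]
      apply le_of_eq
      refine Finset.sum_eq_zero fun j hj' => ?_
      rw [Finset.mem_Ico] at hj'
      unfold ind
      rw [if_neg]
      rintro ⟨h2, h3⟩
      apply hc
      have h4 : (j0 : ℝ) ≤ j := by exact_mod_cast hj'.1
      have h5 : (j : ℝ) + 1 ≤ j1 := by exact_mod_cast hj'.2
      have h6 : (j0 : ℝ) * h ≤ j * h := by gcongr
      have h7 : ((j : ℝ) + 1) * h ≤ j1 * h := by gcongr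
      constructor
      · linarith [hx.2]
      · linarith [hx.1]
  · have h1 : ind h x t = 0 := by unfold ind; rw [if_neg hx]
    rw [h1, zero_mul, zero_mul]

lemma pairs_int (S : Finset ℝ) {A B h a b : ℝ} (hAB : A ≤ B) (hh : 0 ≤ h) {j0 j1 : ℕ}
    (hj : j0 ≤ j1) (ha : a ≤ ((j0 : ℝ) - 1) * h) (hb : j1 * h ≤ b) :
    ∑ j ∈ Finset.Ico j0 j1, ∫ t in A..B, nS S h t * nS S h (t + j * h) ≤ h * PP S a b := by
  have hii : ∀ j : ℕ, IntervalIntegrable (fun t => nS S h t * nS S h (t + j * h)) volume A B := by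
    intro j
    refine bmi ((nS_meas S h).mul ((nS_meas S h).comp (measurable_id.add_const (j * h))))
      (M := S.card * S.card) (fun t => ?_) A B
    show |nS S h t * nS S h (t + j * h)| ≤ _
    rw [abs_of_nonneg (mul_nonneg (nS_nonneg S h _) (nS_nonneg S h _))]
    exact mul_le_mul (nS_le S h _) (nS_le S h _) (nS_nonneg S h _) (Nat.cast_nonneg _)
  rw [← intervalIntegral.integral_finsetSum fun j _ => hii j]
  have h1 : ∀ t, ∑ j ∈ Finset.Ico j0 j1, nS S h t * nS S h (t + j * h) =
      nS S h t * ∑ j ∈ Finset.Ico j0 j1, nS S h (t + j * h) := fun t => by rw [Finset.mul_sum]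
  have hi1 : ∀ x y : ℝ, IntervalIntegrable
      (fun t => ind h x t * (if a < y - x ∧ y - x < b then (1 : ℝ) else 0)) volume A B := by
    intro x y
    refine bmi ((ind_meas h x).mul_const _) (M := 1) (fun t => ?_) A B
    have g1 := ind_nonneg h x t
    have g2 := ind_le_one h x t
    split_ifs
    · rw [mul_one, abs_of_nonneg g1]; exact g2
    · simp
  have hi2 : ∀ x : ℝ, IntervalIntegrable
      (fun t => ∑ y ∈ S, ind h x t * (if a < y - x ∧ y - x < b then (1 : ℝ) else 0))
        volume A B := by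
    intro x
    have := IntervalIntegrable.sum (μ := volume) (a := A) (b := B) S
      (f := fun y t => ind h x t * (if a < y - x ∧ y - x < b then (1 : ℝ) else 0))
      (fun y _ => hi1 x y)
    refine this.congr fun t _ => ?_
    simp
  have hi3 : IntervalIntegrable
      (fun t => ∑ x ∈ S, ∑ y ∈ S, ind h x t * (if a < y - x ∧ y - x < b then (1 : ℝ) else 0))
        volume A B := by
    have := IntervalIntegrable.sum (μ := volume) (a := A) (b := B) S
      (f := fun x t => ∑ y ∈ S, ind h x t * (if a < y - x ∧ y - x < b then (1 : ℝ) else 0))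
      (fun x _ => hi2 x)
    refine this.congr fun t _ => ?_
    simp
  calc ∫ t in A..B, ∑ j ∈ Finset.Ico j0 j1, nS S h t * nS S h (t + j * h) ≤
      ∫ t in A..B, ∑ x ∈ S, ∑ y ∈ S,
        ind h x t * (if a < y - x ∧ y - x < b then (1 : ℝ) else 0) := by
        refine intervalIntegral.integral_mono_on hAB ?_ hi3 fun t _ => ?_
        · have := IntervalIntegrable.sum (μ := volume) (a := A) (b := B) (Finset.Ico j0 j1)
            (f := fun j t => nS S h t * nS S h (t + j * h)) (fun j _ => hii j)
          refine this.congr fun t _ => ?_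
          simp
        · rw [h1 t]
          exact pairs_pt S hh hj ha hb t
    _ = ∑ x ∈ S, ∑ y ∈ S, J A B h x x * (if a < y - x ∧ y - x < b then (1 : ℝ) else 0) := by
        rw [intervalIntegral.integral_finsetSum fun x _ => hi2 x]
        refine Finset.sum_congr rfl fun x _ => ?_
        rw [intervalIntegral.integral_finsetSum fun y _ => hi1 x y]
        refine Finset.sum_congr rfl fun y _ => ?_
        rw [intervalIntegral.integral_mul_const, ind_int1 hAB]
    _ ≤ h * PP S a b := by
        unfold PP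
        rw [Finset.mul_sum]
        refine Finset.sum_le_sum fun x _ => ?_
        rw [Finset.mul_sum]
        refine Finset.sum_le_sum fun y _ => ?_
        have := J_self_le (A := A) (B := B) (x := x) hh
        split_ifs
        · linarith
        · simp

/-- **the pairs in a set, from the truncated counts** -/
theorem pure_pairs {A B h g a b : ℝ} (hAB : A ≤ B) (hh : 0 < h) (hg : 0 < g) (S : Finset ℝ)
    {j0 j1 : ℕ} (hj : j0 ≤ j1) (ha : a ≤ ((j0 : ℝ) - 1) * h)
    (hb : j1 * h ≤ b) {r : ℝ → ℝ} (hri : IntervalIntegrable r volume A B)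
    (hr0 : ∀ t ∈ Icc A B, 0 ≤ r t)
    (hr : ∀ t ∈ Icc A B, ∀ x ∈ S, |x - t| ≤ j1 * h + h → 1 ≤ r t) {Φ : ℝ}
    (hΦ : Φ ≤ ∫ t in A..B, fS S h g t) :
    ((j1 : ℝ) - j0) * (g ^ 2 * (2 * Φ - j1 * h - ∫ t in A..B, r t)) ≤ h * PP S a b := by
  refine le_trans ?_ (pairs_int S hAB hh.le hj ha hb)
  have hcard : ((j1 : ℝ) - j0) = ((Finset.Ico j0 j1).card : ℝ) := by
    rw [Nat.card_Ico, Nat.cast_sub hj]
  rw [hcard, ← nsmul_eq_mul]
  refine Finset.card_nsmul_le_sum _ _ _ fun j hj' => ?_
  rw [Finset.mem_Ico] at hj'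
  have hjj : (j : ℝ) ≤ j1 := by exact_mod_cast hj'.2.le
  have hjh : (j : ℝ) * h ≤ j1 * h := by gcongr
  have hjh0 : 0 ≤ (j : ℝ) * h := by positivity
  -- the pointwise lower bound
  have key : ∀ t ∈ Icc A B, g ^ 2 * (fS S h g t + fS S h g (t + j * h) - r t) ≤
      nS S h t * nS S h (t + j * h) := by
    intro t ht
    have f0 := fS_nonneg S h hg t
    have f1 := fS_le S h hg t
    have f0' := fS_nonneg S h hg (t + j * h)
    have f1' := fS_le S h hg (t + j * h)
    have hprod : fS S h g t + fS S h g (t + j * h) - r t ≤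
        fS S h g t * fS S h g (t + j * h) := by
      by_cases hp : 0 < fS S h g t ∨ 0 < fS S h g (t + j * h)
      · have hr1 : 1 ≤ r t := by
          rcases hp with hp | hp
          · obtain ⟨x, hx, h1, h2⟩ := fS_pos hg hp
            refine hr t ht x hx ?_
            rw [abs_of_pos (by linarith)]
            have : 0 ≤ (j1 : ℝ) * h := by positivity
            linarith
          · obtain ⟨x, hx, h1, h2⟩ := fS_pos hg hp
            refine hr t ht x hx ?_
            rw [abs_of_pos (by linarith)]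
            linarith
        nlinarith
      · push Not at hp
        have e1 : fS S h g t = 0 := le_antisymm hp.1 f0
        have e2 : fS S h g (t + j * h) = 0 := le_antisymm hp.2 f0'
        rw [e1, e2]
        have := hr0 t ht
        linarith
    calc g ^ 2 * (fS S h g t + fS S h g (t + j * h) - r t) ≤
        g ^ 2 * (fS S h g t * fS S h g (t + j * h)) := by gcongr
      _ = (g * fS S h g t) * (g * fS S h g (t + j * h)) := by ring
      _ ≤ _ := mul_le_mul (fS_mul S h hg t) (fS_mul S h hg _) (by positivity)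
          (nS_nonneg S h t)
  have hshift : (∫ t in A..B, fS S h g t) - j1 * h ≤ ∫ t in A..B, fS S h g (t + j * h) := by
    rw [intervalIntegral.integral_comp_add_right (fun t => fS S h g t) (j * h)]
    have e1 : (∫ t in A..(A + j * h), fS S h g t) + ∫ t in (A + j * h)..(B + j * h), fS S h g t =
        (∫ t in A..B, fS S h g t) + ∫ t in B..(B + j * h), fS S h g t := by
      rw [intervalIntegral.integral_add_adjacent_intervals (fS_ii' S h hg _ _)
        (fS_ii' S h hg _ _), intervalIntegral.integral_add_adjacent_intervals (fS_ii' S h hg _ _)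
        (fS_ii' S h hg _ _)]
    have e2 : ∫ t in A..(A + j * h), fS S h g t ≤ j * h := by
      calc ∫ t in A..(A + j * h), fS S h g t ≤ ∫ t in A..(A + j * h), (1 : ℝ) :=
            intervalIntegral.integral_mono_on (by linarith) (fS_ii' S h hg _ _)
              (by simp) fun t _ => fS_le S h hg t
        _ = j * h := by simp
    have e3 : 0 ≤ ∫ t in B..(B + j * h), fS S h g t :=
      intervalIntegral.integral_nonneg (by linarith) fun t _ => fS_nonneg S h hg t
    linarith
  have hnii : IntervalIntegrable (fun t => nS S h t * nS S h (t + j * h)) volume A B := by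
    refine bmi ((nS_meas S h).mul ((nS_meas S h).comp (measurable_id.add_const (j * h))))
      (M := S.card * S.card) (fun t => ?_) A B
    show |nS S h t * nS S h (t + j * h)| ≤ _
    rw [abs_of_nonneg (mul_nonneg (nS_nonneg S h _) (nS_nonneg S h _))]
    exact mul_le_mul (nS_le S h _) (nS_le S h _) (nS_nonneg S h _) (Nat.cast_nonneg _)
  calc g ^ 2 * (2 * Φ - j1 * h - ∫ t in A..B, r t) ≤
      g ^ 2 * ((∫ t in A..B, fS S h g t) + (∫ t in A..B, fS S h g (t + j * h)) -
        ∫ t in A..B, r t) := by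
        apply mul_le_mul_of_nonneg_left _ (by positivity)
        linarith
    _ = ∫ t in A..B, g ^ 2 * (fS S h g t + fS S h g (t + j * h) - r t) := by
        rw [intervalIntegral.integral_const_mul, intervalIntegral.integral_sub
          ((fS_ii' S h hg _ _).add (fS_ii S h hg _ _ _)) hri,
          intervalIntegral.integral_add (fS_ii' S h hg _ _) (fS_ii S h hg _ _ _)]
    _ ≤ _ := by
        refine intervalIntegral.integral_mono_on hAB ?_ hnii fun t ht => key t ht
        exact (((fS_ii' S h hg _ _).add (fS_ii S h hg _ _ _)).sub hri).const_mul _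

/-- lower bound for the integral of the truncated counts -/
theorem f_lower {A B h g κ : ℝ} (hAB : A ≤ B) (hh : 0 ≤ h) (hg : 0 < g) (hκ : 0 < κ)
    (S : Finset ℝ) (hS : ∀ x ∈ S, x ≤ B) {c : ℝ → ℝ}
    (hc : ∀ t ∈ Icc A B, nS S h t ≤ c t)
    (hci : IntervalIntegrable (fun t => (c t - g) ^ 2) volume A B) {V : ℝ}
    (hV : ∫ t in A..B, (c t - g) ^ 2 ≤ V) :
    (h * (((S.filter (fun x => A + h ≤ x)).card : ℝ)) - V / (2 * κ) - κ / 2 * (B - A)) / g ≤
      ∫ t in A..B, fS S h g t := by
  have h1 : ∀ t ∈ Icc A B, nS S h t - ((c t - g) ^ 2 / (2 * κ) + κ / 2) ≤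
      g * fS S h g t := by
    intro t ht
    have e : g * fS S h g t = min (nS S h t) g := by
      unfold fS
      rw [mul_div_cancel₀ _ hg.ne']
    rw [e]
    have h2 : 0 ≤ (c t - g) ^ 2 / (2 * κ) + κ / 2 := by positivity
    apply le_min
    · linarith
    · have h3 := hc t ht
      have h4 : c t - g ≤ (c t - g) ^ 2 / (2 * κ) + κ / 2 := by
        have h5 : (c t - g) ^ 2 / (2 * κ) + κ / 2 - (c t - g) = (c t - g - κ) ^ 2 / (2 * κ) := by
          field_simp
          ring
        have h6 : 0 ≤ (c t - g - κ) ^ 2 / (2 * κ) := by positivity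
        linarith
      linarith
  have hn : IntervalIntegrable (fun t => nS S h t) volume A B := by
    refine bmi (nS_meas S h) (M := S.card) (fun t => ?_) A B
    rw [abs_of_nonneg (nS_nonneg S h t)]
    exact nS_le S h t
  have hii : IntervalIntegrable (fun t => (c t - g) ^ 2 / (2 * κ) + κ / 2) volume A B :=
    (hci.div_const _).add (by simp)
  have h2 : ∫ t in A..B, (nS S h t - ((c t - g) ^ 2 / (2 * κ) + κ / 2)) ≤
      ∫ t in A..B, g * fS S h g t :=
    intervalIntegral.integral_mono_on hAB (hn.sub hii) ((fS_ii' S h hg _ _).const_mul g) h1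
  rw [intervalIntegral.integral_const_mul, intervalIntegral.integral_sub hn hii,
    intervalIntegral.integral_add (hci.div_const _) (by simp),
    intervalIntegral.integral_div] at h2
  simp only [intervalIntegral.integral_const, smul_eq_mul] at h2
  have h3 : h * (((S.filter (fun x => A + h ≤ x)).card : ℝ)) ≤ ∫ t in A..B, nS S h t := by
    unfold nS
    rw [intervalIntegral.integral_finsetSum fun x _ => bmi (ind_meas h x) (M := 1)
      (fun t => by rw [abs_of_nonneg (ind_nonneg h x t)]; exact ind_le_one h x t) A B]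
    calc h * (((S.filter (fun x => A + h ≤ x)).card : ℝ)) =
        ∑ x ∈ S.filter (fun x => A + h ≤ x), h := by
          rw [Finset.sum_const, nsmul_eq_mul, mul_comm]
      _ ≤ ∑ x ∈ S.filter (fun x => A + h ≤ x), ∫ t in A..B, ind h x t := by
          refine Finset.sum_le_sum fun x hx => ?_
          rw [Finset.mem_filter] at hx
          rw [ind_int1 hAB, J_self hh hx.2 (hS x hx.1)]
      _ ≤ _ := by
          apply Finset.sum_le_sum_of_subset_of_nonneg (Finset.filter_subset _ _)
          intro x _ _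
          exact intervalIntegral.integral_nonneg hAB fun t _ => ind_nonneg h x t
  have h4 : (∫ t in A..B, (c t - g) ^ 2) / (2 * κ) ≤ V / (2 * κ) := by gcongr
  rw [div_le_iff₀ hg]
  linarith

end Pool.Agent.R482.BSP
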