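import Pool.Agent.TH803.UC.Sets
import Pool.Agent.TH803.TW.Ker
import Pool.Agent.R319.WB3
import Pool.Agent.R482.BSP.Pure

set_option autoImplicit false

/-! # Auxiliary facts: almost periodic functions, sets of simple critical zeros -/

namespace Pool.Agent.R482.BSP

open Complex Filter Topology Set MeasureTheory
open H370 H370.A2 H370.AS H295SI TH803TW TH803UC
open Pool.Agent.TH850.UV (cnt cnt_eq NS mS mS_nonneg nv2)
open Pool.Agent.R319.WB (ind ind_nonneg nn_loc nn nn_eq nn_block)

/-- uniform continuity of almost periodic functions -/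
lemma unif_ap {φ : ℝ → ℝ} {M : ℝ} (hφ : APm φ M) {ω : ℝ} (hω : 0 < ω) :
    ∃ δ : ℝ, 0 < δ ∧ ∀ x y : ℝ, |x - y| ≤ δ → |φ x - φ y| ≤ ω := by
  obtain ⟨S, c, -, h1, -⟩ := hφ (ω / 3) (by positivity)
  set K : ℝ := ∑ τ ∈ S, ‖c τ‖ * |τ| with hK
  have hK0 : 0 ≤ K := Finset.sum_nonneg fun _ _ => by positivity
  refine ⟨ω / (3 * (K + 1)), by positivity, fun x y hxy => ?_⟩
  have h2 := tp_lip S c x y
  have h4 : K * |x - y| ≤ ω / 3 := by
    calc K * |x - y| ≤ K * (ω / (3 * (K + 1))) := by gcongr
      _ = K / (K + 1) * (ω / 3) := by field_simp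
      _ ≤ 1 * (ω / 3) := by
          apply mul_le_mul_of_nonneg_right _ (by positivity)
          rw [div_le_one (by positivity)]
          linarith
      _ = _ := one_mul _
  have a1 := abs_le.1 (h1 x)
  have a2 := abs_le.1 (h1 y)
  have a3 := abs_le.1 (h2.trans h4)
  rw [abs_le]
  constructor <;> linarith [a1.1, a1.2, a2.1, a2.2, a3.1, a3.2]

/-- mean value on dyadic intervals -/
lemma mean_up {φ : ℝ → ℝ} {m : ℝ} (hφ : APm φ m) (hc : Continuous φ) {η : ℝ} (hη : 0 < η) :
    ∃ T0 : ℝ, 1 ≤ T0 ∧ ∀ T : ℝ, T0 ≤ T → ∫ t in T..(2 * T), φ t ≤ (m + η) * T := by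
  obtain ⟨S, c, h0, hS, hm⟩ := hφ (η / 3) (by positivity)
  have h1 := (tp_mean c h0).eventually
    (Metric.ball_mem_nhds (c 0).re (show 0 < η / 12 by positivity))
  obtain ⟨X1, hX1⟩ := Filter.eventually_atTop.mp h1
  refine ⟨max 1 X1, le_max_left _ _, fun T hT => ?_⟩
  have hT0 : 0 < T := lt_of_lt_of_le one_pos ((le_max_left _ _).trans hT)
  have hTX : X1 ≤ T := (le_max_right _ _).trans hT
  have e1 := hX1 T hTX
  have e2 := hX1 (2 * T) (by linarith)
  rw [Real.dist_eq, abs_lt] at e1 e2
  obtain ⟨a1, -⟩ := e1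
  obtain ⟨-, a2⟩ := e2
  have b1 : ((c 0).re - η / 12) * T ≤ ∫ t in (0 : ℝ)..T, tp S c t := by
    have h2 : (c 0).re - η / 12 ≤ (∫ t in (0 : ℝ)..T, tp S c t) / T := by linarith
    rwa [le_div_iff₀ hT0] at h2
  have b2 : ∫ t in (0 : ℝ)..(2 * T), tp S c t ≤ ((c 0).re + η / 12) * (2 * T) := by
    have h2 : (∫ t in (0 : ℝ)..(2 * T), tp S c t) / (2 * T) ≤ (c 0).re + η / 12 := by linarith
    rwa [div_le_iff₀ (by positivity)] at h2
  have e3 : (∫ t in (0 : ℝ)..T, tp S c t) + ∫ t in T..(2 * T), tp S c t =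
      ∫ t in (0 : ℝ)..(2 * T), tp S c t :=
    intervalIntegral.integral_add_adjacent_intervals ((tp_cont S c).intervalIntegrable _ _)
      ((tp_cont S c).intervalIntegrable _ _)
  have h3 : ∫ t in T..(2 * T), φ t ≤ ∫ t in T..(2 * T), (tp S c t + η / 3) := by
    refine intervalIntegral.integral_mono_on (by linarith) (hc.intervalIntegrable _ _)
      (((tp_cont S c).add continuous_const).intervalIntegrable _ _) fun t _ => ?_
    have := (abs_le.mp (hS t)).2
    linarith
  rw [intervalIntegral.integral_add ((tp_cont S c).intervalIntegrable _ _)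
    (intervalIntegrable_const), intervalIntegral.integral_const, smul_eq_mul] at h3
  have h4 := (abs_le.mp hm).2
  have h5 : (c 0).re * T ≤ (m + η / 3) * T := by gcongr; linarith
  nlinarith

lemma torus_cont {k : ℕ} (α : Fin k → ℝ) : Continuous fun t : ℝ => torusPt α t := by
  unfold torusPt
  refine continuous_pi fun j => ?_
  exact (AddCircle.continuous_mk' _).comp (continuous_const.mul continuous_id)

/-- a smaller open set and a continuous function in between -/
lemma between {k : ℕ} {U : Set (UnitAddTorus (Fin k))} (hU : IsOpen U) {ε : ℝ} (hε : 0 < ε) :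
    ∃ (V : Set (UnitAddTorus (Fin k))) (G : C(UnitAddTorus (Fin k), ℝ)), IsOpen V ∧ V ⊆ U ∧
      (∀ x, 0 ≤ G x) ∧ (∀ x ∈ V, G x = 1) ∧ (haarT k U).toReal - ε ≤ (haarT k V).toReal ∧
      ∫ x, G x ∂(haarT k) ≤ (haarT k U).toReal := by
  by_cases hc : (haarT k U).toReal ≤ ε
  · refine ⟨∅, 0, isOpen_empty, empty_subset _, fun x => le_rfl, fun x hx => absurd hx (by simp),
      ?_, ?_⟩
    · simp only [measure_empty, ENNReal.toReal_zero]; linarith
    · simp only [ContinuousMap.zero_apply, integral_zero]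
      exact ENNReal.toReal_nonneg
  · push Not at hc
    have hlt : ENNReal.ofReal ((haarT k U).toReal - ε) < haarT k U := by
      rw [ENNReal.ofReal_lt_iff_lt_toReal (by linarith) (measure_ne_top _ _)]
      linarith
    obtain ⟨K, hKU, hK, hKm⟩ := hU.exists_lt_isCompact hlt
    obtain ⟨V, hV, hKV, hVU⟩ := normal_exists_closure_subset hK.isClosed hU hKU
    obtain ⟨f, hf0, hf1, hf⟩ := exists_continuous_zero_one_of_isClosed
      (s := Uᶜ) (t := closure V) hU.isClosed_compl isClosed_closure (by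
        rw [Set.disjoint_compl_left_iff_subset]
        exact hVU)
    refine ⟨V, f, hV, subset_closure.trans hVU, fun x => (hf x).1,
      fun x hx => hf1 (subset_closure hx), ?_, ?_⟩
    · have h1 := ENNReal.toReal_mono (measure_ne_top (haarT k) V)
        (hKm.le.trans (measure_mono hKV))
      rwa [ENNReal.toReal_ofReal (by linarith)] at h1
    · have hint : Integrable f (haarT k) :=
        (map_continuous f).integrable_of_hasCompactSupport (HasCompactSupport.of_compactSpace _)
      rw [← measureReal_def, ← integral_indicator_one hU.measurableSet]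
      refine integral_mono hint ((integrable_const (1 : ℝ)).indicator hU.measurableSet) ?_
      intro x
      by_cases hx : x ∈ U
      · show f x ≤ U.indicator (fun _ => (1 : ℝ)) x
        rw [Set.indicator_of_mem hx]
        exact (hf x).2
      · show f x ≤ U.indicator (fun _ => (1 : ℝ)) x
        rw [Set.indicator_of_notMem hx]
        exact le_of_eq (hf0 hx)

/-- the ordinates in `(A, B]` of the simple critical zeros with a property -/
def SZ (A B : ℝ) (P : ℝ → Prop) : Set ℝ := {t : ℝ | (A < t ∧ t ≤ B ∧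
  riemannZeta (1 / 2 + I * t) = 0 ∧ deriv riemannZeta (1 / 2 + I * t) ≠ 0) ∧ P t}

lemma SZ_finite {A B : ℝ} (hA : 1 ≤ A) (P : ℝ → Prop) : (SZ A B P).Finite := by
  have hinj : Function.Injective fun t : ℝ => (1 / 2 + I * t : ℂ) := by
    intro a b hab
    have := congrArg Complex.im hab
    simpa using this
  refine Set.Finite.of_finite_image ((zset_finite' good_zeta A B (by linarith)).subset ?_)
    hinj.injOn
  rintro s ⟨t, ⟨⟨h1, h2, h3, h4⟩, -⟩, rfl⟩
  refine ⟨?_, ?_, ?_, ?_, h3⟩ <;> simp <;> first | assumption | norm_num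

/-- the count of the simple critical zeros is at most the count of all zeros -/
lemma nS_le_cnt {A B h : ℝ} (hA : 1 ≤ A) (hh : 0 ≤ h) (P : ℝ → Prop) {t : ℝ} (ht : A ≤ t)
    (htB : t ≤ B) : nS (SZ_finite (B := B) hA P).toFinset h t ≤ (cnt t h : ℝ) := by
  classical
  rw [cnt_eq (A := A) (B := B + h) hA ht (by linarith)]
  unfold nS NS
  have hinj : Function.Injective fun t : ℝ => (1 / 2 + I * t : ℂ) := by
    intro a b hab
    have := congrArg Complex.im hab
    simpa using this
  have e1 : ∑ x ∈ (SZ_finite (B := B) hA P).toFinset, ind h x t =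
      ∑ s ∈ (SZ_finite (B := B) hA P).toFinset.image (fun t : ℝ => (1 / 2 + I * t : ℂ)),
        ind h s.im t := by
    rw [Finset.sum_image fun a _ b _ hab => hinj hab]
    refine Finset.sum_congr rfl fun x _ => ?_
    congr 1
    simp
  rw [e1]
  have hsub : (SZ_finite (B := B) hA P).toFinset.image (fun t : ℝ => (1 / 2 + I * t : ℂ)) ⊆
      Zf riemannZeta A (B + h) := by
    intro s hs
    rw [Finset.mem_image] at hs
    obtain ⟨x, hx, rfl⟩ := hs
    rw [Set.Finite.mem_toFinset] at hx
    obtain ⟨⟨h1, h2, h3, h4⟩, -⟩ := hx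
    rw [mem_Zf good_zeta hA]
    refine ⟨?_, ?_, ?_, ?_, h3⟩
    · simp
    · simp; norm_num
    · simp; exact h1
    · simp; linarith
  calc ∑ s ∈ (SZ_finite (B := B) hA P).toFinset.image (fun t : ℝ => (1 / 2 + I * t : ℂ)),
        ind h s.im t ≤
      ∑ s ∈ (SZ_finite (B := B) hA P).toFinset.image (fun t : ℝ => (1 / 2 + I * t : ℂ)),
        mS s * ind h s.im t := by
        refine Finset.sum_le_sum fun s hs => ?_
        have h5 := hsub hs
        rw [mem_Zf good_zeta hA] at h5
        have h6 : 1 ≤ mult riemannZeta s :=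
          H370.Loc.mult_pos' good_zeta (by linarith [h5.2.2.1]) h5.2.2.2.2
        have h7 : (1 : ℝ) ≤ mS s := by
          show (1 : ℝ) ≤ (mult riemannZeta s : ℝ)
          exact_mod_cast h6
        exact le_mul_of_one_le_left (ind_nonneg h s.im t) h7
    _ ≤ ∑ s ∈ Zf riemannZeta A (B + h), mS s * ind h s.im t :=
        Finset.sum_le_sum_of_subset_of_nonneg hsub fun s _ _ =>
          mul_nonneg (mS_nonneg s) (ind_nonneg h s.im t)
    _ = _ := rfl

/-- few of the points lie close to the left end -/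
lemma few_left {A B h : ℝ} (hA : 1 ≤ A) (hB : A + h ≤ B) (hh : 0 ≤ h) (P : ℝ → Prop) :
    (((SZ_finite (B := B) hA P).toFinset.card : ℝ)) - nn A (A + h) ≤
      ((((SZ_finite (B := B) hA P).toFinset.filter (fun x => A + h ≤ x)).card : ℝ)) := by
  classical
  set S := (SZ_finite (B := B) hA P).toFinset with hS
  have h1 : (S.card : ℝ) = ((S.filter (fun x => A + h ≤ x)).card : ℝ) +
      ((S.filter (fun x => ¬ A + h ≤ x)).card : ℝ) := by
    have := Finset.card_filter_add_card_filter_not (s := S) (fun x => A + h ≤ x)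
    exact_mod_cast this.symm
  have hinj : Function.Injective fun t : ℝ => (1 / 2 + I * t : ℂ) := by
    intro a b hab
    have := congrArg Complex.im hab
    simpa using this
  have h2 : ((S.filter (fun x => ¬ A + h ≤ x)).card : ℝ) ≤ nn A (A + h) := by
    unfold nn
    have hsub : (S.filter (fun x => ¬ A + h ≤ x)).image (fun t : ℝ => (1 / 2 + I * t : ℂ)) ⊆
        Zf riemannZeta A (A + h) := by
      intro s hs
      rw [Finset.mem_image] at hs
      obtain ⟨x, hx, rfl⟩ := hs
      rw [Finset.mem_filter, hS, Set.Finite.mem_toFinset] at hx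
      obtain ⟨⟨⟨h1, h2, h3, h4⟩, -⟩, h5⟩ := hx
      rw [mem_Zf good_zeta hA]
      refine ⟨?_, ?_, ?_, ?_, h3⟩
      · simp
      · simp; norm_num
      · simp; exact h1
      · simp; linarith
    calc ((S.filter (fun x => ¬ A + h ≤ x)).card : ℝ) =
        ∑ s ∈ (S.filter (fun x => ¬ A + h ≤ x)).image (fun t : ℝ => (1 / 2 + I * t : ℂ)),
          (1 : ℝ) := by
          rw [Finset.sum_const, nsmul_eq_mul, mul_one, Finset.card_image_of_injective _ hinj]
      _ ≤ ∑ s ∈ (S.filter (fun x => ¬ A + h ≤ x)).image (fun t : ℝ => (1 / 2 + I * t : ℂ)),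
          mS s := by
          refine Finset.sum_le_sum fun s hs => ?_
          have h5 := hsub hs
          rw [mem_Zf good_zeta hA] at h5
          have h6 : 1 ≤ mult riemannZeta s :=
            H370.Loc.mult_pos' good_zeta (by linarith [h5.2.2.1]) h5.2.2.2.2
          show (1 : ℝ) ≤ (mult riemannZeta s : ℝ)
          exact_mod_cast h6
      _ ≤ _ := Finset.sum_le_sum_of_subset_of_nonneg hsub fun s _ _ => mS_nonneg s
  linarith

end Pool.Agent.R482.BSP
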